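import Mathlib

set_option autoImplicit false
open Matrix

/-!
# A simple arrangement of 16 lines in the real projective plane without quadrangles

The 16 lines are given by integer normals `nv`.  The tree `T0` lists all sign vectors (cells) of the
arrangement: a leaf carries an integer point in the cell, and a dead end carries a circuit
(four normals with a sign-definite linear relation) showing that the cell is empty.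
-/

namespace Pool.Agent.H448R2.Quad

/-- first coordinates of the normals -/
def ax : Nat → Int
  | 0 => -23
  | 1 => -5
  | 2 => -21
  | 3 => -7
  | 4 => -23
  | 5 => 10
  | 6 => 28
  | 7 => 14
  | 8 => -1
  | 9 => 0
  | 10 => 21
  | 11 => 12
  | 12 => 25
  | 13 => -21
  | 14 => 6
  | 15 => -23
  | _ => 0

/-- second coordinates of the normals -/
def ay : Nat → Int
  | 0 => 1
  | 1 => -27
  | 2 => -10
  | 3 => -26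
  | 4 => 16
  | 5 => -24
  | 6 => 2
  | 7 => -23
  | 8 => 18
  | 9 => -10
  | 10 => 13
  | 11 => -21
  | 12 => 11
  | 13 => 18
  | 14 => 27
  | 15 => -15
  | _ => 0

/-- third coordinates of the normals -/
def az : Nat → Int
  | 0 => 15
  | 1 => 1
  | 2 => -16
  | 3 => 8
  | 4 => -4
  | 5 => 10
  | 6 => 1
  | 7 => -6
  | 8 => 21
  | 9 => 26
  | 10 => -12
  | 11 => 15
  | 12 => 4
  | 13 => 1
  | 14 => 3
  | 15 => 6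
  | _ => 0

/-- determinant of three of the normals -/
def dt (a b c : Nat) : Int :=
  ax a * (ay b * az c - az b * ay c) - ay a * (ax b * az c - az b * ax c) +
    az a * (ax b * ay c - ay b * ax c)

/-- value at an integer point -/
def fI (x y z : Int) (i : Nat) : Int := ax i * x + ay i * y + az i * z

/-- signed integer -/
def sg (b : Bool) (t : Int) : Int := if b then t else -t

/-- decision tree -/
inductive T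
  | L (x y z : Int)
  | N (p q : T)
  | B (a b c : Nat)

open T

/-- lookup of a mask in the tree -/
def look : T → Nat → Nat → Bool
  | L _ _ _, _, _ => true
  | N p q, k, m => if m.testBit k then look p (k + 1) m else look q (k + 1) m
  | B _ _ _, _, _ => false

/-- the circuit test -/
def circ (a b c d m : Nat) : Bool :=
  let u := sg (m.testBit a) (dt b c d)
  let v := sg (m.testBit b) (-dt a c d)
  let w := sg (m.testBit c) (dt a b d)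
  let z := sg (m.testBit d) (-dt a b c)
  (decide (0 < u) && decide (0 < v) && decide (0 < w) && decide (0 < z)) ||
  (decide (u < 0) && decide (v < 0) && decide (w < 0) && decide (z < 0))

/-- the checker -/
def chk (t0 : T) : T → Nat → Nat → Bool
  | L x y z, k, m => k == 16 &&
      (List.range 16).all (fun i => fI x y z i != 0 && (m.testBit i == decide (0 < fI x y z i))) &&
      ((List.range 16).countP fun i => look t0 0 (m ^^^ 2 ^ i)) != 4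
  | N p q, k, m => decide (k < 16) && chk t0 p (k + 1) (m ||| 2 ^ k) && chk t0 q (k + 1) m
  | B a b c, k, m => decide (a < k) && decide (b < k) && decide (c < k) && 
      decide (0 < k) && circ a b c (k - 1) m

/-- the tree of the arrangement -/
def T0 : T :=
(N (N (N (N (N (N (N (B 2 4 5) (N (N (N (N (B 2 8 9) (N (N (B 2 8 11) (N (N (B 7 11 13) (N (L
(-1) (-1) (1)) (B 11 13 14))) (B 4 8 12))) (B 7 8 10))) (B 6 7 8)) (N (N (B 6 8 9) (N (N (B 6 8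
11) (N (N (B 8 11 13) (N (L (-1) (-1) (0)) (B 11 13 14))) (N (B 11 12 13) (N (L (-2) (-3) (-1))
(B 10 12 14))))) (N (B 8 10 11) (N (N (B 5 11 13) (N (L (-5) (-3) (-1)) (B 10 13 14))) (B 9 11
12))))) (N (B 0 7 9) (N (N (B 9 10 11) (N (N (B 9 11 13) (N (L (-2) (-2) (-1)) (B 11 13 14)))
(N (B 11 12 13) (N (L (-2) (-3) (-2)) (B 10 12 14))))) (N (B 8 10 11) (N (N (B 5 11 13) (N (L
(-1) (-1) (-1)) (B 10 13 14))) (N (B 10 12 13) (N (L (-3) (-4) (-4)) (B 10 12 14))))))))) (N (N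
(N (B 2 8 9) (N (N (B 2 8 11) (N (N (N (L (-21) (2) (26)) (B 1 13 14)) (N (L (-2) (-1) (1)) (B
11 13 14))) (B 4 8 12))) (N (B 5 10 11) (N (N (B 5 11 13) (N (L (-10) (-3) (3)) (B 10 13 14)))
(B 9 11 12))))) (B 5 7 8)) (N (N (B 7 8 9) (N (N (B 7 8 11) (N (N (B 8 11 13) (N (L (-3) (-2)
(1)) (B 11 13 14))) (B 7 8 12))) (N (B 8 10 11) (N (N (B 5 11 13) (N (L (-2) (-1) (0)) (B 10 13
14))) (B 9 11 12))))) (N (B 5 7 9) (N (B 7 9 10) (N (B 8 10 11) (N (N (B 5 11 13) (N (L (-13)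
(-7) (-3)) (B 10 13 14))) (B 7 11 12))))))))) (N (B 3 4 5) (N (N (B 5 6 7) (N (B 5 7 8) (N (B 0
7 9) (N (B 5 9 10) (N (B 8 10 11) (N (N (B 7 10 13) (N (L (-2) (-1) (-2)) (B 10 13 14))) (B 0 5
12))))))) (N (N (N (B 2 8 9) (N (N (B 2 8 11) (N (N (N (L (-6) (1) (7)) (B 1 13 14)) (N (L (-6)
(0) (5)) (B 11 13 14))) (B 5 11 12))) (N (B 3 10 11) (N (N (N (L (-5) (1) (3)) (B 1 13 14)) (N
(L (-2) (0) (1)) (B 10 13 14))) (B 9 11 12))))) (N (B 3 8 9) (N (B 8 9 10) (N (B 3 10 11) (N (N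
(B 1 9 13) (N (L (-6) (1) (-1)) (B 10 13 14))) (B 8 11 12)))))) (N (N (B 7 8 9) (N (B 5 8 10)
(N (B 8 10 11) (N (N (B 8 9 13) (N (L (-3) (-1) (0)) (B 10 13 14))) (B 9 11 12))))) (N (B 3 7
9) (N (B 7 9 10) (N (B 8 10 11) (N (N (B 1 9 13) (N (L (-2) (0) (-1)) (B 10 13 14))) (B 7 11
12)))))))))) (N (N (N (N (B 2 6 7) (N (N (B 0 8 9) (N (N (B 0 2 11) (N (B 6 11 12) (N (B 11 12
13) (N (L (1) (-6) (2)) (B 10 12 14))))) (B 4 9 10))) (B 0 6 8))) (B 2 5 6)) (N (N (N (N (B 2 8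
9) (N (N (B 2 8 11) (N (N (B 7 11 13) (N (L (-5) (-6) (5)) (B 11 13 14))) (N (B 11 12 13) (N (L
(-1) (-2) (2)) (B 10 12 14))))) (B 4 9 10))) (B 6 7 8)) (N (N (B 6 8 9) (N (N (B 6 8 11) (N (N
(B 8 11 13) (N (L (-14) (-17) (13)) (B 11 13 14))) (N (B 11 12 13) (N (L (-1) (-2) (0)) (B 10
12 14))))) (B 4 9 10))) (N (B 0 7 9) (N (N (B 9 10 11) (N (B 4 9 12) (N (B 11 12 13) (N (L (-1)
(-2) (-1)) (B 10 12 14))))) (B 0 4 10))))) (N (N (N (B 2 8 9) (N (N (B 2 8 11) (N (N (B 2 4 13)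
(N (L (-5) (-5) (9)) (B 11 13 14))) (B 2 7 12))) (B 4 9 10))) (B 5 7 8)) (B 4 6 7)))) (B 0 3
4))) (N (N (B 2 3 4) (N (B 0 2 5) (N (B 0 3 6) (N (B 1 3 7) (N (B 3 7 8) (N (B 0 1 9) (N (B 7 9
10) (N (B 8 10 11) (N (N (B 1 9 13) (N (L (-1) (0) (-1)) (B 10 13 14))) (B 7 11 12)))))))))) (B
0 2 3))) (N (N (N (N (B 1 4 5) (N (B 2 4 6) (N (N (N (B 1 7 9) (N (N (N (N (N (L (-3) (1) (20))
(B 1 13 14)) (B 4 12 13)) (B 4 11 12)) (N (N (N (L (-1) (0) (3)) (B 1 13 14)) (N (L (-2) (0)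
(3)) (B 11 13 14))) (B 4 8 12))) (B 2 5 10))) (B 5 7 8)) (B 2 6 7)))) (N (B 3 4 5) (N (B 2 5 6)
(N (N (N (B 1 7 9) (N (N (B 1 5 11) (N (N (N (L (-5) (1) (6)) (B 1 13 14)) (B 2 5 13)) (B 5 11
12))) (B 1 2 10))) (B 2 3 8)) (B 2 6 7))))) (N (N (N (N (N (N (N (N (N (B 7 11 12) (N (N (B 10
13 14) (L (7) (-1) (11))) (B 0 10 13))) (B 8 10 11)) (B 7 9 10)) (N (N (N (B 7 11 12) (N (N (L
(2) (-1) (6)) (L (3) (-1) (5))) (N (L (1) (-1) (2)) (L (2) (-1) (4))))) (N (B 6 11 12) (N (B 11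
12 13) (N (L (1) (-4) (4)) (B 10 12 14))))) (B 4 9 10))) (B 3 7 8)) (N (N (B 0 8 9) (N (N (N (B
8 11 12) (N (B 8 10 13) (N (L (2) (-5) (4)) (B 0 8 14)))) (N (B 6 11 12) (N (B 11 12 13) (N (L
(1) (-4) (3)) (B 10 12 14))))) (B 4 9 10))) (B 0 6 8))) (N (N (N (B 1 7 9) (N (N (N (N (N (L
(0) (0) (1)) (B 1 13 14)) (B 6 12 13)) (N (N (L (1) (0) (6)) (L (6) (-1) (18))) (N (L (0) (-1)
(4)) (B 7 13 14)))) (B 6 7 11)) (B 4 9 10))) (B 5 7 8)) (B 5 6 7))) (N (N (N (N (B 6 7 9) (N (N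
(N (B 7 11 12) (N (B 6 7 13) (N (L (-1) (-11) (38)) (B 6 12 14)))) (N (N (B 7 11 13) (N (L (-4)
(-5) (9)) (B 11 13 14))) (N (B 11 12 13) (N (L (0) (-1) (1)) (B 10 12 14))))) (B 4 9 10))) (B 6
7 8)) (N (N (B 6 8 9) (N (N (B 6 8 11) (N (B 2 8 12) (N (B 11 12 13) (N (L (0) (-3) (2)) (B 10
12 14))))) (B 4 9 10))) (B 2 6 8))) (N (N (N (B 1 7 9) (N (N (N (N (N (L (-1) (0) (7)) (B 1 13
14)) (N (L (-1) (-1) (10)) (B 12 13 14))) (N (N (L (-1) (-3) (30)) (B 6 13 14)) (N (L (-1) (-2)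
(12)) (B 7 13 14)))) (N (N (N (L (-1) (0) (6)) (B 1 13 14)) (N (L (-1) (-1) (2)) (B 11 13 14)))
(N (B 11 12 13) (N (L (-1) (-2) (6)) (B 7 13 14))))) (B 4 9 10))) (B 5 7 8)) (B 4 6 7)))) (B 2
3 4))) (B 0 1 2))) (N (N (N (N (B 1 2 4) (N (B 3 4 5) (N (B 1 3 6) (N (N (N (B 2 8 9) (N (N (B
2 8 11) (N (N (N (L (-13) (3) (15)) (B 11 12 14)) (B 1 11 13)) (B 5 11 12))) (N (B 3 10 11) (N
(N (N (L (-3) (1) (1)) (B 3 12 14)) (N (L (-10) (2) (1)) (B 10 13 14))) (B 9 11 12))))) (N (B 3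
8 9) (N (B 8 9 10) (N (B 3 10 11) (N (N (N (L (-4) (1) (0)) (B 3 12 14)) (N (L (-5) (1) (-1))
(B 10 13 14))) (B 8 11 12)))))) (N (B 1 7 8) (N (B 3 7 9) (N (B 7 9 10) (N (B 8 10 11) (N (N (B
3 8 13) (N (L (-11) (2) (-3)) (B 10 13 14))) (B 7 11 12)))))))))) (B 1 2 3)) (N (N (B 2 3 4) (N
(B 0 2 5) (N (B 0 3 6) (N (N (N (B 2 8 9) (N (B 2 3 10) (N (B 2 10 11) (N (N (N (L (-2) (1)
(1)) (B 2 9 14)) (B 3 9 13)) (B 9 11 12))))) (N (N (B 4 9 10) (N (N (N (N (B 10 12 14) (L (-1)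
(3) (-1))) (B 11 12 13)) (B 6 11 12)) (N (N (N (L (-4) (4) (-3)) (L (-1) (2) (-1))) (B 8 10
13)) (B 8 11 12)))) (N (B 8 9 10) (N (B 2 10 11) (N (N (N (L (-1) (1) (0)) (L (-5) (8) (0))) (N
(L (-9) (2) (-2)) (B 10 13 14))) (B 8 11 12)))))) (N (B 3 7 8) (N (N (B 4 9 10) (N (B 0 8 11)
(N (N (N (L (-1) (1) (-1)) (L (-2) (2) (-3))) (N (L (-4) (1) (-6)) (B 0 13 14))) (B 7 11 12))))
(N (B 7 9 10) (N (B 8 10 11) (N (N (N (L (-2) (1) (-2)) (B 8 10 14)) (N (L (-4) (1) (-4)) (B 10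
13 14))) (B 7 11 12)))))))))) (B 0 2 3))) (N (N (N (N (N (B 4 5 6) (N (N (N (B 4 5 9) (N (N (N
(N (N (L (0) (2) (7)) (B 3 4 14)) (B 6 12 13)) (B 4 11 12)) (B 6 7 11)) (B 5 6 10))) (B 5 7 8))
(B 5 6 7))) (N (B 1 5 6) (N (N (N (B 5 6 9) (N (N (N (N (N (L (-1) (1) (4)) (B 5 6 14)) (B 4 12
13)) (B 4 11 12)) (N (N (N (L (-2) (1) (5)) (B 11 12 14)) (B 1 11 13)) (B 1 11 12))) (B 2 5
10))) (B 5 7 8)) (B 2 6 7)))) (N (B 3 4 5) (N (B 2 5 6) (N (N (N (B 3 6 9) (N (N (N (N (N (L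
(-2) (3) (9)) (B 3 6 14)) (B 5 12 13)) (B 4 11 12)) (N (N (N (L (-1) (1) (3)) (B 11 12 14)) (B
1 11 13)) (B 5 11 12))) (N (B 3 10 11) (N (N (N (L (-3) (2) (4)) (B 3 12 14)) (B 2 11 13)) (B 9
11 12))))) (B 2 3 8)) (B 2 6 7))))) (N (N (N (N (N (N (N (N (N (B 7 11 12) (N (N (B 10 13 14)
(L (3) (0) (5))) (B 0 10 13))) (B 8 10 11)) (B 7 9 10)) (N (N (N (B 7 11 12) (N (N (B 1 7 14)
(L (1) (0) (2))) (B 1 10 13))) (B 1 7 11)) (B 4 9 10))) (B 3 7 8)) (B 1 3 7)) (N (N (N (N (N (N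
(B 3 10 12) (N (N (B 10 13 14) (L (3) (1) (6))) (B 7 10 13))) (B 8 10 11)) (B 5 9 10)) (N (N (N
(N (N (L (0) (1) (5)) (L (1) (1) (5))) (B 6 12 13)) (N (N (L (1) (0) (4)) (L (1) (0) (3))) (B 1
10 13))) (B 6 7 11)) (B 4 9 10))) (B 5 7 8)) (B 5 6 7))) (N (B 1 5 6) (N (N (N (B 5 6 9) (N (N
(N (N (N (L (-1) (1) (10)) (B 5 6 14)) (B 1 12 13)) (B 1 6 12)) (B 1 4 11)) (B 4 9 10))) (B 5 7
8)) (B 4 6 7)))) (B 2 3 4))) (N (N (N (N (B 4 5 6) (N (N (N (B 4 5 9) (N (N (N (N (N (L (0) (1)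
(3)) (L (1) (4) (10))) (B 6 12 13)) (B 4 11 12)) (B 6 7 11)) (B 5 6 10))) (B 5 7 8)) (B 5 6
7))) (N (B 3 5 6) (N (N (N (B 5 6 9) (N (N (N (N (N (L (-1) (4) (12)) (B 5 6 14)) (B 4 12 13))
(B 4 11 12)) (B 3 5 11)) (B 3 5 10))) (B 5 7 8)) (B 2 6 7)))) (N (N (B 0 5 6) (N (N (N (N (N (N
(N (N (B 10 12 14) (L (1) (3) (4))) (B 10 12 13)) (B 4 11 12)) (B 8 10 11)) (N (N (N (N (B 10
12 14) (L (0) (1) (1))) (B 11 12 13)) (B 0 11 12)) (B 9 10 11))) (N (N (N (N (N (L (-1) (7)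
(15)) (L (0) (1) (2))) (B 6 12 13)) (B 4 11 12)) (B 6 7 11)) (N (N (N (N (B 6 11 14) (L (0) (3)
(4))) (B 11 12 13)) (B 10 11 12)) (B 6 10 11)))) (N (N (B 4 9 10) (N (N (N (N (B 10 12 14) (L
(0) (1) (0))) (B 11 12 13)) (B 0 11 12)) (B 6 8 11))) (B 6 8 9))) (B 0 6 7))) (N (B 2 5 6) (N
(N (N (N (B 6 9 10) (N (N (N (N (B 10 12 14) (L (-1) (4) (2))) (B 11 12 13)) (B 6 11 12)) (B 9
10 11))) (N (N (N (N (N (L (-1) (2) (4)) (L (-1) (5) (8))) (B 5 12 13)) (B 4 11 12)) (N (N (N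
(L (-3) (3) (7)) (B 11 12 14)) (B 3 11 13)) (B 5 11 12))) (N (N (N (N (L (-1) (2) (2)) (L (-1)
(2) (1))) (B 11 12 13)) (B 10 11 12)) (N (N (N (L (-1) (1) (1)) (L (-8) (15) (6))) (B 2 11 13))
(B 9 11 12))))) (N (N (B 4 9 10) (N (N (N (N (B 10 12 14) (L (-1) (3) (0))) (B 11 12 13)) (B 6
11 12)) (N (N (N (B 2 10 14) (L (-3) (6) (1))) (B 2 11 13)) (B 8 11 12)))) (N (B 8 9 10) (N (N
(N (N (B 9 12 14) (L (-4) (9) (3))) (B 11 12 13)) (B 10 11 12)) (N (N (N (L (-2) (3) (1)) (L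
(-2) (4) (1))) (B 2 11 13)) (B 8 11 12)))))) (B 2 6 7))))) (N (N (N (N (N (N (N (N (N (B 7 11
12) (N (N (B 10 13 14) (L (59) (12) (90))) (B 0 10 13))) (B 8 10 11)) (B 7 9 10)) (B 3 7 9)) (B
0 7 8)) (B 0 3 7)) (N (N (N (N (N (N (N (N (B 10 12 14) (L (2) (3) (6))) (B 10 12 13)) (N (N (B
10 13 14) (L (1) (1) (2))) (B 7 10 13))) (B 8 10 11)) (B 5 9 10)) (N (N (N (N (N (L (1) (6)
(20)) (L (1) (2) (4))) (B 6 12 13)) (N (N (B 3 13 14) (L (3) (2) (8))) (B 3 10 13))) (B 6 7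
11)) (B 4 9 10))) (B 5 7 8)) (B 5 6 7))) (B 3 4 5)) (N (N (B 0 5 6) (N (N (N (N (N (N (N (N (B
10 12 14) (L (2) (3) (3))) (B 10 12 13)) (N (N (B 10 13 14) (L (13) (14) (20))) (B 5 11 13)))
(B 8 10 11)) (N (N (N (N (B 10 12 14) (L (4) (7) (6))) (B 11 12 13)) (B 0 11 12)) (B 9 10 11)))
(N (N (N (N (N (B 4 5 14) (L (2) (5) (9))) (B 6 12 13)) (B 5 10 12)) (B 6 7 11)) (B 4 9 10)))
(B 0 4 8)) (B 0 6 7))) (B 2 4 5))))))) (N (N (N (N (N (N (B 2 4 5) (N (N (B 0 6 7) (N (B 0 4 8)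
(N (N (B 4 9 10) (N (B 6 7 11) (N (B 5 10 12) (N (B 6 12 13) (N (L (-2) (-5) (-9)) (B 4 5
14)))))) (N (N (B 9 10 11) (N (B 0 11 12) (N (B 11 12 13) (N (L (-4) (-7) (-6)) (B 10 12
14))))) (N (B 8 10 11) (N (N (B 5 11 13) (N (L (-13) (-14) (-20)) (B 10 13 14))) (N (B 10 12
13) (N (L (-2) (-3) (-3)) (B 10 12 14))))))))) (B 0 5 6))) (N (B 3 4 5) (N (N (B 5 6 7) (N (B 5
7 8) (N (N (B 4 9 10) (N (B 6 7 11) (N (N (B 3 10 13) (N (L (-3) (-2) (-8)) (B 3 13 14))) (N (B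
6 12 13) (N (L (-1) (-2) (-4)) (L (-1) (-6) (-20))))))) (N (B 5 9 10) (N (B 8 10 11) (N (N (B 7
10 13) (N (L (-1) (-1) (-2)) (B 10 13 14))) (N (B 10 12 13) (N (L (-2) (-3) (-6)) (B 10 12
14))))))))) (N (B 0 3 7) (N (B 0 7 8) (N (B 3 7 9) (N (B 7 9 10) (N (B 8 10 11) (N (N (B 0 10
13) (N (L (-59) (-12) (-90)) (B 10 13 14))) (B 7 11 12)))))))))) (N (N (N (N (B 2 6 7) (N (N (N
(N (N (B 8 11 12) (N (B 2 11 13) (N (L (2) (-4) (-1)) (L (2) (-3) (-1))))) (N (B 10 11 12) (N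
(B 11 12 13) (N (L (4) (-9) (-3)) (B 9 12 14))))) (B 8 9 10)) (N (N (N (B 8 11 12) (N (B 2 11
13) (N (L (3) (-6) (-1)) (B 2 10 14)))) (N (B 6 11 12) (N (B 11 12 13) (N (L (1) (-3) (0)) (B
10 12 14))))) (B 4 9 10))) (N (N (N (N (B 9 11 12) (N (B 2 11 13) (N (L (8) (-15) (-6)) (L (1)
(-1) (-1))))) (N (B 10 11 12) (N (B 11 12 13) (N (L (1) (-2) (-1)) (L (1) (-2) (-2)))))) (N (N
(B 5 11 12) (N (B 3 11 13) (N (B 11 12 14) (L (3) (-3) (-7))))) (N (B 4 11 12) (N (B 5 12 13)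
(N (L (1) (-5) (-8)) (L (1) (-2) (-4))))))) (N (N (B 9 10 11) (N (B 6 11 12) (N (B 11 12 13) (N
(L (1) (-4) (-2)) (B 10 12 14))))) (B 6 9 10))))) (B 2 5 6)) (N (N (B 0 6 7) (N (N (B 6 8 9) (N
(N (B 6 8 11) (N (B 0 11 12) (N (B 11 12 13) (N (L (0) (-1) (0)) (B 10 12 14))))) (B 4 9 10)))
(N (N (N (B 6 10 11) (N (B 10 11 12) (N (B 11 12 13) (N (L (0) (-3) (-4)) (B 6 11 14))))) (N (B
6 7 11) (N (B 4 11 12) (N (B 6 12 13) (N (L (0) (-1) (-2)) (L (1) (-7) (-15))))))) (N (N (B 9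
10 11) (N (B 0 11 12) (N (B 11 12 13) (N (L (0) (-1) (-1)) (B 10 12 14))))) (N (B 8 10 11) (N
(B 4 11 12) (N (B 10 12 13) (N (L (-1) (-3) (-4)) (B 10 12 14))))))))) (B 0 5 6))) (N (N (N (B
2 6 7) (N (B 5 7 8) (N (N (B 3 5 10) (N (B 3 5 11) (N (B 4 11 12) (N (B 4 12 13) (N (B 5 6 14)
(L (1) (-4) (-12))))))) (B 5 6 9)))) (B 3 5 6)) (N (N (B 5 6 7) (N (B 5 7 8) (N (N (B 5 6 10)
(N (B 6 7 11) (N (B 4 11 12) (N (B 6 12 13) (N (L (-1) (-4) (-10)) (L (0) (-1) (-3))))))) (B 4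
5 9)))) (B 4 5 6))))) (N (N (B 2 3 4) (N (N (N (B 4 6 7) (N (B 5 7 8) (N (N (B 4 9 10) (N (B 1
4 11) (N (B 1 6 12) (N (B 1 12 13) (N (B 5 6 14) (L (1) (-1) (-10))))))) (B 5 6 9)))) (B 1 5
6)) (N (N (B 5 6 7) (N (B 5 7 8) (N (N (B 4 9 10) (N (B 6 7 11) (N (N (B 1 10 13) (N (L (-1)
(0) (-3)) (L (-1) (0) (-4)))) (N (B 6 12 13) (N (L (-1) (-1) (-5)) (L (0) (-1) (-5))))))) (N (B
5 9 10) (N (B 8 10 11) (N (N (B 7 10 13) (N (L (-3) (-1) (-6)) (B 10 13 14))) (B 3 10 12)))))))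
(N (B 1 3 7) (N (B 3 7 8) (N (N (B 4 9 10) (N (B 1 7 11) (N (N (B 1 10 13) (N (L (-1) (0) (-2))
(B 1 7 14))) (B 7 11 12)))) (N (B 7 9 10) (N (B 8 10 11) (N (N (B 0 10 13) (N (L (-3) (0) (-5))
(B 10 13 14))) (B 7 11 12)))))))))) (N (N (N (N (B 2 6 7) (N (B 2 3 8) (N (N (N (N (B 9 11 12)
(N (B 2 11 13) (N (B 3 12 14) (L (3) (-2) (-4))))) (B 3 10 11)) (N (N (B 5 11 12) (N (B 1 11
13) (N (B 11 12 14) (L (1) (-1) (-3))))) (N (B 4 11 12) (N (B 5 12 13) (N (B 3 6 14) (L (2)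
(-3) (-9))))))) (B 3 6 9)))) (B 2 5 6)) (B 3 4 5)) (N (N (N (B 2 6 7) (N (B 5 7 8) (N (N (B 2 5
10) (N (N (B 1 11 12) (N (B 1 11 13) (N (B 11 12 14) (L (2) (-1) (-5))))) (N (B 4 11 12) (N (B
4 12 13) (N (B 5 6 14) (L (1) (-1) (-4))))))) (B 5 6 9)))) (B 1 5 6)) (N (N (B 5 6 7) (N (B 5 7
8) (N (N (B 5 6 10) (N (B 6 7 11) (N (B 4 11 12) (N (B 6 12 13) (N (B 3 4 14) (L (0) (-2)
(-7))))))) (B 4 5 9)))) (B 4 5 6)))))) (N (N (B 0 2 3) (N (N (N (N (N (N (N (N (N (B 7 11 12)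
(N (N (B 10 13 14) (L (4) (-1) (4))) (N (B 8 10 14) (L (2) (-1) (2))))) (B 8 10 11)) (B 7 9
10)) (N (N (N (B 7 11 12) (N (N (B 0 13 14) (L (4) (-1) (6))) (N (L (2) (-2) (3)) (L (1) (-1)
(1))))) (B 0 8 11)) (B 4 9 10))) (B 3 7 8)) (N (N (N (N (N (B 8 11 12) (N (N (B 10 13 14) (L
(9) (-2) (2))) (N (L (5) (-8) (0)) (L (1) (-1) (0))))) (B 2 10 11)) (B 8 9 10)) (N (N (N (B 8
11 12) (N (B 8 10 13) (N (L (1) (-2) (1)) (L (4) (-4) (3))))) (N (B 6 11 12) (N (B 11 12 13) (N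
(L (1) (-3) (1)) (B 10 12 14))))) (B 4 9 10))) (N (N (N (N (B 9 11 12) (N (B 3 9 13) (N (B 2 9
14) (L (2) (-1) (-1))))) (B 2 10 11)) (B 2 3 10)) (B 2 8 9)))) (B 0 3 6)) (B 0 2 5)) (B 2 3
4))) (N (B 1 2 3) (N (N (N (N (N (N (N (N (N (B 7 11 12) (N (N (B 10 13 14) (L (11) (-2) (3)))
(B 3 8 13))) (B 8 10 11)) (B 7 9 10)) (B 3 7 9)) (B 1 7 8)) (N (N (N (N (N (B 8 11 12) (N (N (B
10 13 14) (L (5) (-1) (1))) (N (B 3 12 14) (L (4) (-1) (0))))) (B 3 10 11)) (B 8 9 10)) (B 3 8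
9)) (N (N (N (N (B 9 11 12) (N (N (B 10 13 14) (L (10) (-2) (-1))) (N (B 3 12 14) (L (3) (-1)
(-1))))) (B 3 10 11)) (N (N (B 5 11 12) (N (B 1 11 13) (N (B 11 12 14) (L (13) (-3) (-15)))))
(B 2 8 11))) (B 2 8 9)))) (B 1 3 6)) (B 3 4 5)) (B 1 2 4))))) (N (N (B 0 1 2) (N (N (B 2 3 4)
(N (N (N (B 4 6 7) (N (B 5 7 8) (N (N (B 4 9 10) (N (N (N (N (B 7 13 14) (L (1) (2) (-6))) (B
11 12 13)) (N (N (B 11 13 14) (L (1) (1) (-2))) (N (B 1 13 14) (L (1) (0) (-6))))) (N (N (N (B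
7 13 14) (L (1) (2) (-12))) (N (B 6 13 14) (L (1) (3) (-30)))) (N (N (B 12 13 14) (L (1) (1)
(-10))) (N (B 1 13 14) (L (1) (0) (-7))))))) (B 1 7 9)))) (N (N (B 2 6 8) (N (N (B 4 9 10) (N
(N (N (N (B 10 12 14) (L (0) (3) (-2))) (B 11 12 13)) (B 2 8 12)) (B 6 8 11))) (B 6 8 9))) (N
(B 6 7 8) (N (N (B 4 9 10) (N (N (N (N (B 10 12 14) (L (0) (1) (-1))) (B 11 12 13)) (N (N (B 11
13 14) (L (4) (5) (-9))) (B 7 11 13))) (N (N (N (B 6 12 14) (L (1) (11) (-38))) (B 6 7 13)) (B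
7 11 12)))) (B 6 7 9))))) (N (N (B 5 6 7) (N (B 5 7 8) (N (N (B 4 9 10) (N (B 6 7 11) (N (N (N
(B 7 13 14) (L (0) (1) (-4))) (N (L (-6) (1) (-18)) (L (-1) (0) (-6)))) (N (B 6 12 13) (N (B 1
13 14) (L (0) (0) (-1))))))) (B 1 7 9)))) (N (N (B 0 6 8) (N (N (B 4 9 10) (N (N (N (N (B 10 12
14) (L (-1) (4) (-3))) (B 11 12 13)) (B 6 11 12)) (N (N (N (B 0 8 14) (L (-2) (5) (-4))) (B 8
10 13)) (B 8 11 12)))) (B 0 8 9))) (N (B 3 7 8) (N (N (B 4 9 10) (N (N (N (N (B 10 12 14) (L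
(-1) (4) (-4))) (B 11 12 13)) (B 6 11 12)) (N (N (N (L (-2) (1) (-4)) (L (-1) (1) (-2))) (N (L
(-3) (1) (-5)) (L (-2) (1) (-6)))) (B 7 11 12)))) (N (B 7 9 10) (N (B 8 10 11) (N (N (B 0 10
13) (N (L (-7) (1) (-11)) (B 10 13 14))) (B 7 11 12)))))))))) (N (N (N (N (B 2 6 7) (N (B 2 3
8) (N (N (B 1 2 10) (N (N (B 5 11 12) (N (B 2 5 13) (N (B 1 13 14) (L (5) (-1) (-6))))) (B 1 5
11))) (B 1 7 9)))) (B 2 5 6)) (B 3 4 5)) (N (N (N (B 2 6 7) (N (B 5 7 8) (N (N (B 2 5 10) (N (N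
(B 4 8 12) (N (N (B 11 13 14) (L (2) (0) (-3))) (N (B 1 13 14) (L (1) (0) (-3))))) (N (B 4 11
12) (N (B 4 12 13) (N (B 1 13 14) (L (3) (-1) (-20))))))) (B 1 7 9)))) (B 2 4 6)) (B 1 4 5)))))
(N (N (B 0 2 3) (N (N (N (N (N (N (N (N (N (B 7 11 12) (N (N (B 10 13 14) (L (1) (0) (1))) (B 1
9 13))) (B 8 10 11)) (B 7 9 10)) (B 0 1 9)) (B 3 7 8)) (B 1 3 7)) (B 0 3 6)) (B 0 2 5)) (B 2 3
4))) (N (N (B 0 3 4) (N (N (N (B 4 6 7) (N (B 5 7 8) (N (N (B 4 9 10) (N (N (B 2 7 12) (N (N (B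
11 13 14) (L (5) (5) (-9))) (B 2 4 13))) (B 2 8 11))) (B 2 8 9)))) (N (N (N (N (B 0 4 10) (N (N
(N (N (B 10 12 14) (L (1) (2) (1))) (B 11 12 13)) (B 4 9 12)) (B 9 10 11))) (B 0 7 9)) (N (N (B
4 9 10) (N (N (N (N (B 10 12 14) (L (1) (2) (0))) (B 11 12 13)) (N (N (B 11 13 14) (L (14) (17)
(-13))) (B 8 11 13))) (B 6 8 11))) (B 6 8 9))) (N (B 6 7 8) (N (N (B 4 9 10) (N (N (N (N (B 10
12 14) (L (1) (2) (-2))) (B 11 12 13)) (N (N (B 11 13 14) (L (5) (6) (-5))) (B 7 11 13))) (B 2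
8 11))) (B 2 8 9))))) (N (B 2 5 6) (N (N (B 0 6 8) (N (N (B 4 9 10) (N (N (N (N (B 10 12 14) (L
(-1) (6) (-2))) (B 11 12 13)) (B 6 11 12)) (B 0 2 11))) (B 0 8 9))) (B 2 6 7))))) (N (N (N (N
(N (N (N (N (N (B 7 11 12) (N (N (B 10 13 14) (L (2) (0) (1))) (B 1 9 13))) (B 8 10 11)) (B 7 9
10)) (B 3 7 9)) (N (N (N (N (B 9 11 12) (N (N (B 10 13 14) (L (3) (1) (0))) (B 8 9 13))) (B 8
10 11)) (B 5 8 10)) (B 7 8 9))) (N (N (N (N (N (B 8 11 12) (N (N (B 10 13 14) (L (6) (-1) (1)))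
(B 1 9 13))) (B 3 10 11)) (B 8 9 10)) (B 3 8 9)) (N (N (N (N (B 9 11 12) (N (N (B 10 13 14) (L
(2) (0) (-1))) (N (B 1 13 14) (L (5) (-1) (-3))))) (B 3 10 11)) (N (N (B 5 11 12) (N (N (B 11
13 14) (L (6) (0) (-5))) (N (B 1 13 14) (L (6) (-1) (-7))))) (B 2 8 11))) (B 2 8 9)))) (N (N (N
(N (N (N (B 0 5 12) (N (N (B 10 13 14) (L (2) (1) (2))) (B 7 10 13))) (B 8 10 11)) (B 5 9 10))
(B 0 7 9)) (B 5 7 8)) (B 5 6 7))) (B 3 4 5)) (N (N (N (N (N (N (N (N (B 7 11 12) (N (N (B 10 13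
14) (L (13) (7) (3))) (B 5 11 13))) (B 8 10 11)) (B 7 9 10)) (B 5 7 9)) (N (N (N (N (B 9 11 12)
(N (N (B 10 13 14) (L (2) (1) (0))) (B 5 11 13))) (B 8 10 11)) (N (N (B 7 8 12) (N (N (B 11 13
14) (L (3) (2) (-1))) (B 8 11 13))) (B 7 8 11))) (B 7 8 9))) (N (B 5 7 8) (N (N (N (N (B 9 11
12) (N (N (B 10 13 14) (L (10) (3) (-3))) (B 5 11 13))) (B 5 10 11)) (N (N (B 4 8 12) (N (N (B
11 13 14) (L (2) (1) (-1))) (N (B 1 13 14) (L (21) (-2) (-26))))) (B 2 8 11))) (B 2 8 9)))) (N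
(N (N (N (N (N (N (N (B 10 12 14) (L (3) (4) (4))) (B 10 12 13)) (N (N (B 10 13 14) (L (1) (1)
(1))) (B 5 11 13))) (B 8 10 11)) (N (N (N (N (B 10 12 14) (L (2) (3) (2))) (B 11 12 13)) (N (N
(B 11 13 14) (L (2) (2) (1))) (B 9 11 13))) (B 9 10 11))) (B 0 7 9)) (N (N (N (N (B 9 11 12) (N
(N (B 10 13 14) (L (5) (3) (1))) (B 5 11 13))) (B 8 10 11)) (N (N (N (N (B 10 12 14) (L (2) (3)
(1))) (B 11 12 13)) (N (N (B 11 13 14) (L (1) (1) (0))) (B 8 11 13))) (B 6 8 11))) (B 6 8 9)))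
(N (B 6 7 8) (N (N (B 7 8 10) (N (N (B 4 8 12) (N (N (B 11 13 14) (L (1) (1) (-1))) (B 7 11
13))) (B 2 8 11))) (B 2 8 9))))) (B 2 4 5))))))))

set_option maxRecDepth 100000 in
theorem T0_chk : chk T0 T0 0 0 = true := by decide +kernel

end Pool.Agent.H448R2.Quad
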