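import Pool.Agent.H448R2.Quad

set_option autoImplicit false
open Matrix

namespace Pool.Agent.H448R2.Quad

open T

/-- the linear form at a real point -/
noncomputable def f (x : Fin 3 → ℝ) (i : ℕ) : ℝ := (ax i : ℝ) * x 0 + (ay i : ℝ) * x 1 + (az i : ℝ) * x 2

lemma circuit (x : Fin 3 → ℝ) (a b c d : ℕ) :
    (dt b c d : ℝ) * f x a + ((-dt a c d : ℤ) : ℝ) * f x b + (dt a b d : ℝ) * f x c +
      ((-dt a b c : ℤ) : ℝ) * f x d = 0 := by
  simp only [dt, f]
  push_cast
  ring

lemma sg_pos {u : ℤ} {F : ℝ} (hF : F ≠ 0) (h : 0 < sg (decide (0 < F)) u) : 0 < (u : ℝ) * F := by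
  unfold sg at h
  by_cases hp : 0 < F
  · simp [hp] at h
    have : (0 : ℝ) < u := by exact_mod_cast h
    positivity
  · simp [hp] at h
    have h1 : F < 0 := lt_of_le_of_ne (not_lt.mp hp) hF
    have : (u : ℝ) < 0 := by exact_mod_cast h
    nlinarith

lemma sg_neg {u : ℤ} {F : ℝ} (hF : F ≠ 0) (h : sg (decide (0 < F)) u < 0) : (u : ℝ) * F < 0 := by
  unfold sg at h
  by_cases hp : 0 < F
  · simp [hp] at h
    have : (u : ℝ) < 0 := by exact_mod_cast h
    nlinarith
  · simp [hp] at h
    have h1 : F < 0 := lt_of_le_of_ne (not_lt.mp hp) hF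
    have : (0 : ℝ) < u := by exact_mod_cast h
    nlinarith

lemma testBit_or_pow (m k i : ℕ) : (m ||| 2 ^ k).testBit i = (m.testBit i || decide (k = i)) := by
  rw [Nat.testBit_or, Nat.testBit_two_pow]

lemma look_of_chk (t0 : T) (t : T) : ∀ (k m M : ℕ) (x : Fin 3 → ℝ), chk t0 t k m = true → k ≤ 16 →
    (∀ i < 16, f x i ≠ 0) → (∀ i < 16, M.testBit i = decide (0 < f x i)) →
    (∀ i < k, m.testBit i = M.testBit i) → (∀ i, k ≤ i → m.testBit i = false) →
    look t k M = true := by
  induction t with
  | L a b c => intros; rfl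
  | N p q ihp ihq =>
    intro k m M x h hk hx hM hm hge
    simp only [chk, Bool.and_eq_true, decide_eq_true_eq] at h
    obtain ⟨⟨h1, h2⟩, h3⟩ := h
    simp only [look]
    by_cases hb : M.testBit k = true
    · rw [if_pos hb]
      refine ihp (k + 1) (m ||| 2 ^ k) M x h2 (by omega) hx hM ?_ ?_
      · intro i hi
        rw [testBit_or_pow]
        rcases Nat.lt_succ_iff_lt_or_eq.mp hi with h4 | h4
        · rw [hm i h4]
          simp [show k ≠ i by omega]
        · subst h4
          simp [hb]
      · intro i hi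
        rw [testBit_or_pow, hge i (by omega)]
        simp; omega
    · rw [if_neg hb]
      refine ihq (k + 1) m M x h3 (by omega) hx hM ?_ ?_
      · intro i hi
        rcases Nat.lt_succ_iff_lt_or_eq.mp hi with h4 | h4
        · exact hm i h4
        · subst h4
          rw [hge i le_rfl]
          simpa using hb
      · intro i hi
        exact hge i (by omega)
  | B a b c =>
    intro k m M x h hk hx hM hm hge
    exfalso
    simp only [chk, Bool.and_eq_true, decide_eq_true_eq] at h
    obtain ⟨⟨⟨⟨h1, h2⟩, h3⟩, h4⟩, h5⟩ := h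
    have e1 : m.testBit a = decide (0 < f x a) := by rw [hm a h1, hM a (by omega)]
    have e2 : m.testBit b = decide (0 < f x b) := by rw [hm b h2, hM b (by omega)]
    have e3 : m.testBit c = decide (0 < f x c) := by rw [hm c h3, hM c (by omega)]
    have e4 : m.testBit (k - 1) = decide (0 < f x (k - 1)) := by
      rw [hm _ (by omega), hM _ (by omega)]
    have hc := circuit x a b c (k - 1)
    simp only [circ, e1, e2, e3, e4, Bool.or_eq_true, Bool.and_eq_true, decide_eq_true_eq] at h5
    rcases h5 with ⟨⟨⟨g1, g2⟩, g3⟩, g4⟩ | ⟨⟨⟨g1, g2⟩, g3⟩, g4⟩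
    · have := sg_pos (hx a (by omega)) g1
      have := sg_pos (hx b (by omega)) g2
      have := sg_pos (hx c (by omega)) g3
      have := sg_pos (hx (k - 1) (by omega)) g4
      linarith
    · have := sg_neg (hx a (by omega)) g1
      have := sg_neg (hx b (by omega)) g2
      have := sg_neg (hx c (by omega)) g3
      have := sg_neg (hx (k - 1) (by omega)) g4
      linarith

lemma f_int (a b c : ℤ) (i : ℕ) : f ![(a : ℝ), (b : ℝ), (c : ℝ)] i = (fI a b c i : ℝ) := by
  simp only [f, fI]
  push_cast
  simp

lemma exists_of_look (t0 : T) (t : T) : ∀ (k m M : ℕ), chk t0 t k m = true → k ≤ 16 →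
    look t k M = true → M < 2 ^ 16 →
    (∀ i < k, m.testBit i = M.testBit i) → (∀ i, k ≤ i → m.testBit i = false) →
    (∃ y : Fin 3 → ℝ, (∀ i < 16, f y i ≠ 0) ∧ (∀ i < 16, M.testBit i = decide (0 < f y i))) ∧
      ((List.range 16).countP fun i => look t0 0 (M ^^^ 2 ^ i)) ≠ 4 := by
  induction t with
  | L a b c =>
    intro k m M h hk hl hM hm hge
    simp only [chk, Bool.and_eq_true, beq_iff_eq, List.all_eq_true, List.mem_range, bne_iff_ne] at h
    obtain ⟨⟨h1, h2⟩, h3⟩ := h
    have hmM : m = M := by
      apply Nat.eq_of_testBit_eq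
      intro i
      by_cases hi : i < 16
      · exact hm i (by omega)
      · rw [hge i (by omega), Nat.testBit_lt_two_pow]
        exact lt_of_lt_of_le hM (Nat.pow_le_pow_right (by norm_num) (by omega))
    subst hmM
    refine ⟨⟨![(a : ℝ), (b : ℝ), (c : ℝ)], ?_, ?_⟩, h3⟩
    · intro i hi
      rw [f_int]
      exact_mod_cast (h2 i hi).1
    · intro i hi
      rw [f_int, (h2 i hi).2]
      congr 1
      exact propext (by norm_cast)
  | N p q ihp ihq =>
    intro k m M h hk hl hM hm hge
    simp only [chk, Bool.and_eq_true, decide_eq_true_eq] at h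
    obtain ⟨⟨h1, h2⟩, h3⟩ := h
    simp only [look] at hl
    by_cases hb : M.testBit k = true
    · rw [if_pos hb] at hl
      refine ihp (k + 1) (m ||| 2 ^ k) M h2 (by omega) hl hM ?_ ?_
      · intro i hi
        rw [testBit_or_pow]
        rcases Nat.lt_succ_iff_lt_or_eq.mp hi with h4 | h4
        · rw [hm i h4]
          simp [show k ≠ i by omega]
        · subst h4
          simp [hb]
      · intro i hi
        rw [testBit_or_pow, hge i (by omega)]
        simp; omega
    · rw [if_neg hb] at hl
      refine ihq (k + 1) m M h3 (by omega) hl hM ?_ ?_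
      · intro i hi
        rcases Nat.lt_succ_iff_lt_or_eq.mp hi with h4 | h4
        · exact hm i h4
        · subst h4
          rw [hge i le_rfl]
          simpa using hb
      · intro i hi
        exact hge i (by omega)
  | B a b c =>
    intro k m M h hk hl
    simp [look] at hl

/-- the mask of a point -/
noncomputable def msk (x : Fin 3 → ℝ) : ℕ := Nat.ofBits (fun i : Fin 16 => decide (0 < f x i))

lemma msk_testBit (x : Fin 3 → ℝ) (i : ℕ) (hi : i < 16) :
    (msk x).testBit i = decide (0 < f x i) := by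
  unfold msk
  rw [Nat.testBit_ofBits_lt _ _ hi]

lemma msk_lt (x : Fin 3 → ℝ) : msk x < 2 ^ 16 := Nat.ofBits_lt_two_pow _

/-- all determinants are non-zero -/
lemma dt_ne : ∀ i j k : Fin 16, i ≠ j → i ≠ k → j ≠ k → dt i j k ≠ 0 := by decide +kernel

/-- The normals. -/
noncomputable def nv (i : Fin 16) : Fin 3 → ℝ := ![(ax i : ℝ), (ay i : ℝ), (az i : ℝ)]

lemma dot_nv (i : Fin 16) (x : Fin 3 → ℝ) : dotProduct (nv i) x = f x i := by
  simp [nv, f, dotProduct, Fin.sum_univ_three]

lemma indep (i j k : Fin 16) (h1 : i ≠ j) (h2 : i ≠ k) (h3 : j ≠ k) :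
    LinearIndependent ℝ ![nv i, nv j, nv k] := by
  have h : (Matrix.of ![nv i, nv j, nv k]).det = (dt i j k : ℝ) := by
    simp [Matrix.det_fin_three, nv, dt]
    ring
  have h4 : (Matrix.of ![nv i, nv j, nv k]).det ≠ 0 := by
    rw [h]
    exact_mod_cast dt_ne i j k h1 h2 h3
  exact Matrix.linearIndependent_rows_of_det_ne_zero h4

lemma key (x : Fin 3 → ℝ) (hx : ∀ i : Fin 16, dotProduct (nv i) x ≠ 0) :
    {i : Fin 16 | ∃ y : Fin 3 → ℝ,
      dotProduct (nv i) x * dotProduct (nv i) y < 0 ∧
      ∀ j : Fin 16, j ≠ i → 0 < dotProduct (nv j) x * dotProduct (nv j) y}.ncard ≠ 4 := by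
  have hx' : ∀ i < 16, f x i ≠ 0 := by
    intro i hi
    have := hx ⟨i, hi⟩
    rwa [dot_nv] at this
  have hlook := look_of_chk T0 T0 0 0 (msk x) x T0_chk (by norm_num) hx' (fun i hi => msk_testBit x i hi)
    (by simp) (by simp)
  obtain ⟨-, hcount⟩ := exists_of_look T0 T0 0 0 (msk x) T0_chk (by norm_num) hlook (msk_lt x)
    (by simp) (by simp)
  have hset : {i : Fin 16 | ∃ y : Fin 3 → ℝ,
      dotProduct (nv i) x * dotProduct (nv i) y < 0 ∧
      ∀ j : Fin 16, j ≠ i → 0 < dotProduct (nv j) x * dotProduct (nv j) y} =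
      ((Finset.univ.filter fun i : Fin 16 => look T0 0 (msk x ^^^ 2 ^ (i : ℕ)) = true : Finset (Fin 16)) :
        Set (Fin 16)) := by
    ext i
    simp only [Set.mem_ofPred_eq, Finset.coe_filter, Finset.mem_univ, true_and]
    have hlt : msk x ^^^ 2 ^ (i : ℕ) < 2 ^ 16 :=
      Nat.xor_lt_two_pow (msk_lt x) (Nat.pow_lt_pow_right (by norm_num) i.2)
    constructor
    · rintro ⟨y, h1, h2⟩
      refine look_of_chk T0 T0 0 0 _ y T0_chk (by norm_num) ?_ ?_ (by simp) (by simp)
      · intro j hj h0
        by_cases hij : (⟨j, hj⟩ : Fin 16) = i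
        · rw [← hij] at h1
          simp only [dot_nv] at h1
          rw [h0] at h1
          simp at h1
        · have := h2 ⟨j, hj⟩ hij
          simp only [dot_nv] at this
          rw [h0] at this
          simp at this
      · intro j hj
        rw [Nat.testBit_xor, msk_testBit x j hj, Nat.testBit_two_pow]
        by_cases hij : (⟨j, hj⟩ : Fin 16) = i
        · have e : (i : ℕ) = j := by rw [← hij]
          rw [← hij] at h1
          simp only [dot_nv] at h1
          rcases mul_neg_iff.mp h1 with ⟨g1, g2⟩ | ⟨g1, g2⟩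
          · simp [e, g1, not_lt.mpr g2.le]
          · simp [e, g2, not_lt.mpr g1.le]
        · have e : (i : ℕ) ≠ j := by
            intro h
            apply hij
            ext
            exact h.symm
          have := h2 ⟨j, hj⟩ hij
          simp only [dot_nv] at this
          rcases mul_pos_iff.mp this with ⟨g1, g2⟩ | ⟨g1, g2⟩
          · simp [e, g1, g2]
          · simp [e, not_lt.mpr g1.le, not_lt.mpr g2.le]
    · intro h
      obtain ⟨⟨y, hy1, hy2⟩, -⟩ := exists_of_look T0 T0 0 0 _ T0_chk (by norm_num) h hlt (by simp) (by simp)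
      refine ⟨y, ?_, ?_⟩
      · have h3 := hy2 i i.2
        rw [Nat.testBit_xor, msk_testBit x i i.2, Nat.testBit_two_pow] at h3
        simp only [dot_nv]
        have g1 := hx' i i.2
        have g2 := hy1 i i.2
        by_cases hp : 0 < f x i
        · simp [hp] at h3
          have : f y i < 0 := lt_of_le_of_ne h3 g2
          exact mul_neg_of_pos_of_neg hp this
        · simp [hp] at h3
          have : f x i < 0 := lt_of_le_of_ne (not_lt.mp hp) g1
          exact mul_neg_of_neg_of_pos this h3
      · intro j hij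
        have h3 := hy2 j j.2
        have e : (i : ℕ) ≠ j := by
          intro h
          apply hij
          ext
          exact h.symm
        rw [Nat.testBit_xor, msk_testBit x j j.2, Nat.testBit_two_pow] at h3
        simp only [dot_nv]
        have g1 := hx' j j.2
        have g2 := hy1 j j.2
        by_cases hp : 0 < f x j
        · simp [hp, e] at h3
          exact mul_pos hp h3
        · simp [hp, e] at h3
          have g3 : f x j < 0 := lt_of_le_of_ne (not_lt.mp hp) g1
          have g4 : f y j < 0 := lt_of_le_of_ne h3 g2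
          exact mul_pos_of_neg_of_neg g3 g4
  rw [hset, Set.ncard_coe_finset]
  intro h4
  apply hcount
  rw [← h4]
  have e1 : (Finset.univ.filter fun i : Fin 16 => look T0 0 (msk x ^^^ 2 ^ (i : ℕ)) = true).card =
      (List.finRange 16).countP fun i : Fin 16 => look T0 0 (msk x ^^^ 2 ^ (i : ℕ)) := by
    rw [Finset.card_filter, Fin.sum_univ_def, List.countP_eq_length_filter]
    induction List.finRange 16 with
    | nil => simp
    | cons a l ih =>
      rw [List.map_cons, List.sum_cons, ih, List.filter_cons]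
      split_ifs <;> simp_all [add_comm]
  rw [e1, ← List.map_coe_finRange_eq_range, List.countP_map]
  rfl

end Pool.Agent.H448R2.Quad
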